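import Pool.Agent.helper9.TH.Spec

/-!
# Row MNE: a nontrivial nilpotent normal subgroup contains a nontrivial elementary
# abelian normal subgroup
-/

namespace Pool.Agent.helper14.TH

open Pool.Agent.helper9.TH

universe u

theorem center_ne_bot {G : Type u} [Group G] (hn : Group.IsNilpotent G)
    (hG : (⊤ : Subgroup G) ≠ ⊥) : Subgroup.center G ≠ ⊥ := by
  intro hc
  obtain ⟨n, hn⟩ := hn.nilpotent'
  have key : ∀ k : ℕ, Subgroup.upperCentralSeries G k = ⊥ := by
    intro k
    induction k with
    | zero => rfl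
    | succ k ih =>
      rw [eq_bot_iff]
      intro x hx
      rw [Subgroup.mem_upperCentralSeries_succ_iff] at hx
      have hx' : x ∈ Subgroup.center G := by
        rw [Subgroup.mem_center_iff]
        intro g
        have h1 := hx g
        rw [ih, Subgroup.mem_bot, commutatorElement_eq_one_iff_mul_comm] at h1
        exact h1.symm
      rw [hc] at hx'
      exact hx'
  exact hG (by rw [← hn, key n])

theorem MNE : MNE_stmt.{u} := by
  intro T _ _ R hR hne hnil
  have htop : (⊤ : Subgroup R) ≠ ⊥ := by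
    intro h
    apply hne
    rw [eq_bot_iff]
    intro x hx
    have h1 : (⟨x, hx⟩ : R) ∈ (⊤ : Subgroup R) := Subgroup.mem_top _
    rw [h, Subgroup.mem_bot] at h1
    rw [Subgroup.mem_bot]
    exact congrArg Subtype.val h1
  have hc := center_ne_bot hnil htop
  have hcard : Nat.card (Subgroup.center R) ≠ 1 := by
    intro h
    exact hc (Subgroup.card_eq_one.mp h)
  set s := (Nat.card (Subgroup.center R)).minFac with hs
  have hsp : s.Prime := Nat.minFac_prime hcard
  haveI : Fact s.Prime := ⟨hsp⟩
  obtain ⟨z, hz⟩ := exists_prime_orderOf_dvd_card' (G := Subgroup.center R) s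
    (Nat.minFac_dvd _)
  refine ⟨s, hsp, OZ s R, ?_, ?_, ?_, ?_⟩
  · constructor
    rintro n ⟨hn, hns, hnc⟩ g
    refine ⟨hR.conj_mem n hn g, ?_, ?_⟩
    · rw [conj_pow, hns]; simp
    · intro y hy
      have h1 : g⁻¹ * y * g ∈ R := by
        have := hR.conj_mem y hy g⁻¹
        simpa using this
      have h2 := hnc _ h1
      have h3 : g * (n * (g⁻¹ * y * g)) * g⁻¹ = g * ((g⁻¹ * y * g) * n) * g⁻¹ := by rw [h2]
      calc g * n * g⁻¹ * y = g * (n * (g⁻¹ * y * g)) * g⁻¹ := by group
        _ = g * ((g⁻¹ * y * g) * n) * g⁻¹ := h3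
        _ = y * (g * n * g⁻¹) := by group
  · rintro x ⟨hx, -, -⟩
    exact hx
  · intro hbot
    have hmem : ((z : R) : T) ∈ OZ s R := by
      refine ⟨(z : R).2, ?_, ?_⟩
      · have h1 : z ^ s = 1 := by rw [← hz]; exact pow_orderOf_eq_one z
        have h2 : ((z : R) : T) ^ s = (((z ^ s : Subgroup.center R) : R) : T) := by simp
        rw [h2, h1]; simp
      · intro y hy
        have h1 := Subgroup.mem_center_iff.mp z.2 ⟨y, hy⟩
        have h2 := congrArg Subtype.val h1
        simpa using h2.symm
    rw [hbot, Subgroup.mem_bot] at hmem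
    have hz1 : z = 1 := by
      apply Subtype.ext
      apply Subtype.ext
      simpa using hmem
    rw [hz1, orderOf_one] at hz
    exact hsp.one_lt.ne hz
  · constructor
    · rintro x ⟨hx, -, hxc⟩ y ⟨hy, -, -⟩
      exact hxc y hy
    · rintro x ⟨-, hx, -⟩
      exact hx

end Pool.Agent.helper14.TH
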